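import Mathlib
import Pool.Agent.TH881.RQ.Wrap

/-! Integers of the form `f(p₁) + p₂`, the prime `p₁` restricted to a dense set of primes:
the exact minimal density. -/

set_option autoImplicit false

namespace Pool.Agent.Results.MP_d9bc60_nt.DensePrimeArguments
open Finset Filter Topology

open Classical in
/-- The number of elements of `S` in `[1, x]`. -/
noncomputable def count (S : Set ℕ) (x : ℕ) : ℕ := ((Icc 1 x).filter (fun n => n ∈ S)).card

/-- The lower asymptotic density. -/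
noncomputable def lowerDensity (S : Set ℕ) : ℝ := liminf (fun x : ℕ => (count S x : ℝ) / x) atTop

/-- The lower density, relative to the set of all primes, of the set of the primes in `A`. -/
noncomputable def relLower (A : Set ℕ) : ℝ :=
  liminf (fun x : ℕ => (count {p | p.Prime ∧ p ∈ A} x : ℝ) / (count {p | p.Prime} x : ℝ)) atTop

/-- The natural numbers `f(p₁) + p₂`, `f = X² + b X + c`, with `p₁ ∈ A` and `p₁`, `p₂` prime. -/
def sums (b c : ℤ) (A : Set ℕ) : Set ℕ := {n | ∃ p₁ p₂ : ℕ, (p₁.Prime ∧ p₁ ∈ A) ∧ p₂.Prime ∧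
  ((p₁ : ℤ) ^ 2 + b * p₁ + c) + p₂ = n}

/-- `F(β)`: the infimum of the lower densities of `sums b c A` for the sets `A` of primes of relative
lower density at least `β`. -/
noncomputable def F (b c : ℤ) (β : ℝ) : ℝ := sInf {d | ∃ A : Set ℕ, β ≤ relLower A ∧ d = lowerDensity (sums b c A)}

/-- The product of the primes up to `w`. -/
def P (w : ℕ) : ℕ := ∏ p ∈ (Icc 1 w).filter Nat.Prime, p

instance (w : ℕ) : NeZero (P w) := ⟨(Pool.Agent.TH881.Wp_pos w).ne'⟩

open Classical in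
/-- The residue classes modulo `P w` which are units. -/
noncomputable def units (w : ℕ) : Finset (ZMod (P w)) := univ.filter (fun a => IsUnit a)

open Classical in
/-- The sums of `f(a)`, `a ∈ B`, and a unit modulo `P w`. -/
noncomputable def plusUnits (b c : ℤ) (w : ℕ) (B : Finset (ZMod (P w))) : Finset (ZMod (P w)) :=
  univ.filter (fun t => ∃ a ∈ B, IsUnit (t - (a ^ 2 + b * a + c)))

/-- The local minimum: the infimum of `|{f(a) + u : a ∈ B, u unit}| / P w` over all `w` and all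
sets `B` of at least `β φ(P w)` units modulo `P w`. -/
noncomputable def localF (b c : ℤ) (β : ℝ) : ℝ := sInf {d | ∃ w : ℕ, ∃ B ⊆ units w,
  β * Nat.totient (P w) ≤ B.card ∧ d = ((plusUnits b c w B).card : ℝ) / P w}

/-- The constant `∏ (1 - (3 p - 1) / (p - 1) ^ 3)`, `p ≥ 5` prime. -/
noncomputable def C₃ : ℝ := ⨅ z : ℕ, ∏ p ∈ (Icc 5 z).filter Nat.Prime, (1 - (3 * (p : ℝ) - 1) / ((p : ℝ) - 1) ^ 3)

open Polynomial Pool.Agent.TH881.RQ in
lemma hit_eq (b c : ℤ) (A : Set ℕ) : hit true (X ^ 2 + C b * X + C c : ℤ[X]) (-1) A = sums b c A := by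
  ext n
  constructor
  · rintro ⟨a, ha1, ha, hp⟩
    refine ⟨a, _, ⟨ha1 rfl, ha⟩, hp, ?_⟩
    rw [Pool.Agent.TH914.J2925.evalQ] at hp ⊢
    have h1 := hp.pos
    rw [Int.toNat_of_nonneg]
    · ring
    · generalize (n : ℤ) + -1 * ((a : ℤ) ^ 2 + b * a + c) = y at h1
      omega
  · rintro ⟨a, p, ⟨ha1, ha⟩, hp, h⟩
    refine ⟨a, fun _ => ha1, ha, ?_⟩
    rw [Pool.Agent.TH914.J2925.evalQ]
    have h2 : (n : ℤ) + -1 * ((a : ℤ) ^ 2 + b * a + c) = p := by
      rw [← h]
      ring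
    rw [h2, Int.toNat_natCast]
    exact hp

open Polynomial Pool.Agent.TH881.RQ in
lemma F_eq (b c : ℤ) (β : ℝ) : F b c β = FFq true (X ^ 2 + C b * X + C c : ℤ[X]) (-1) β := by
  unfold F FFq
  congr 1
  ext d
  constructor
  · rintro ⟨A, h1, h2⟩
    refine ⟨A, ?_, ?_⟩
    · rw [relq_true]
      exact h1
    · rw [hit_eq]
      exact h2
  · rintro ⟨A, h1, h2⟩
    refine ⟨A, ?_, ?_⟩
    · rw [relq_true] at h1
      exact h1
    · rw [hit_eq] at h2
      exact h2

open Polynomial Pool.Agent.TH881 Pool.Agent.TH881.RQ in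
lemma plusUnits_eq (b c : ℤ) (w : ℕ) (B : Finset (ZMod (Wp w))) :
    ((plusUnits b c w B).card : ℝ) / P w =
      ((sumq (X ^ 2 + C b * X + C c : ℤ[X]) (-1) w B).card : ℝ) / Wp w := by
  rw [sumq_quad]
  rfl

open Polynomial Pool.Agent.TH881 Pool.Agent.TH881.RG Pool.Agent.TH881.RQ in
lemma localF_eq (b c : ℤ) (β : ℝ) : localF b c β = Flocq true (X ^ 2 + C b * X + C c : ℤ[X]) (-1) β := by
  unfold localF Flocq
  congr 1
  ext d
  have hA : ∀ w : ℕ, ((AA true w).card : ℝ) = Nat.totient (Wp w) := by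
    intro w
    rw [AA_true, card_UU]
  have hU : ∀ w : ℕ, AA true w = units w := by
    intro w
    rw [AA_true]
    rfl
  constructor
  · rintro ⟨w, B, h0, h1, h2⟩
    refine ⟨w, B, ?_, ?_, ?_⟩
    · rw [hU]
      exact h0
    · rw [hA]
      exact h1
    · exact h2.trans (plusUnits_eq b c w B)
  · rintro ⟨w, B, h0, h1, h2⟩
    refine ⟨w, B, ?_, ?_, ?_⟩
    · rw [← hU]
      exact h0
    · rw [hA] at h1
      exact h1
    · exact h2.trans (plusUnits_eq b c w B).symm

/-- Let `b` and `c` have opposite parity, `3 ∤ b`. Then `F(β)` is equal to the local minimum for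
`0 < β < 1`, `log log (1 / β) F(β)` tends to `e ^ (-γ)` as `β` tends to `0` from above, and
`(1 - β) (log log (1 / (1 / 2 - F(β)))) ^ 2` tends to `(9 / 2) C₃ e ^ (-2γ)` as `β` tends to `1` from below. -/
theorem result (b c : ℤ) (hbc : Odd (b + c)) (h3 : ¬ (3 : ℤ) ∣ b) :
    (∀ β : ℝ, 0 < β → β < 1 → F b c β = localF b c β) ∧
    Tendsto (fun β : ℝ => Real.log (Real.log (1 / β)) * F b c β) (𝓝[>] 0)
      (𝓝 (Real.exp (-Real.eulerMascheroniConstant))) ∧
    Tendsto (fun β : ℝ => (1 - β) * Real.log (Real.log (1 / (1 / 2 - F b c β))) ^ 2) (𝓝[<] 1)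
      (𝓝 (9 / 2 * C₃ * Real.exp (-Real.eulerMascheroniConstant) ^ 2)) := by
  have hd := (Pool.Agent.TH881.RQ.quad_natDegree b c).ge
  have hl : 0 < (Polynomial.X ^ 2 + Polynomial.C b * Polynomial.X + Polynomial.C c : Polynomial ℤ).leadingCoeff := by
    rw [Pool.Agent.TH881.RQ.quad_leadingCoeff]
    norm_num
  refine ⟨?_, ?_, ?_⟩
  · intro β h0 h1
    rw [F_eq, localF_eq]
    exact Pool.Agent.TH881.RQ.formula true _ hd hl (-1) (Or.inr rfl) β h0 h1
  · simp only [F_eq]
    exact Pool.Agent.TH881.RQ.law_zero true _ hd hl (-1) (Or.inr rfl)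
  · simp only [F_eq]
    refine Pool.Agent.TH881.RQ.law_one true _ hd hl (-1) (Or.inr rfl) (1 / 2) _ 2 ?_ (by norm_num)
      (Pool.Agent.TH914.J2925.lim_quad b c h3 hbc) (Pool.Agent.TH881.RQ.stAdm_quad (-1) (Or.inr rfl) b c h3 hbc)
    have h1 : 0 < Pool.Agent.TH914.J2925.C3 := Pool.Agent.TH914.J2925.C3_pos
    have h2 : C₃ = Pool.Agent.TH914.J2925.C3 := rfl
    rw [h2]
    positivity

end Pool.Agent.Results.MP_d9bc60_nt.DensePrimeArguments
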