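import Pool.Agent.TH464.PO.QuadN2

set_option autoImplicit false

/-!
# Representations `n = f(k) + l` with almost primes `k`, `l`: patterns with prescribed
surroundings, for every `n`

Let `f(x) = x ^ 2 + b x + c` be admissible in the sense of the problem (`b`, `c` of opposite
parity, `3 ∤ b`). For an odd `n` let `k` be good if `k` and `n - f(k)` both have at most `r` prime
factors, all larger than `n ^ (1 / r)`, let `V` be the sieve density of this condition, and for a
finite set `B` let `V_B` be the sieve density of the condition that all `k + t`, `t ∈ B`, satisfy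
it. Given `θ > 0`, a size `β` of patterns, a number `w` of windows, a size `x` and an accuracy
`ε`, for all `r ≥ r0` and EVERY large odd `n` which is not a value of `f`, in ALL intervals `(Z, Z
+ Y]` with `Y ≥ n ^ θ` such that `f < n` on `[0, Z + 2 Y]`, for ALL sets `B ⊆ [0, x / V]` of at
most `β` elements, ALL disjoint windows `(u_i, v_i] ⊆ [0, x / V]` without elements of `B` and ALL
finite sets `E_i`: the number of the `k` in `(Z, Z + Y]` such that all `k + h`, `h ∈ B`, are good
and the number of the good integers in `(k + u_i, k + v_i]` lies in `E_i` for every `i` is `Y V_B`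
times the product of the Poisson probabilities of the `E_i` for the means `(v_i - u_i) V`, up to
`ε Y V_B`. With `B = {0}` and no window: `n` has `(1 ± ε) Y V` representations `f(k) + l` in
almost primes with `k` in `(Z, Z + Y]`.
-/

namespace Pool.Agent.Results.MP_d9bc60_nt.PatternsEveryN

open Finset Filter

/-- `N` has at most `B` prime factors (with multiplicity), all of them larger than `z`. -/
def AlmostPrime (B : ℕ) (z : ℝ) (N : ℕ) : Prop :=
  N.primeFactorsList.length ≤ B ∧ ∀ p : ℕ, p.Prime → p ∣ N → z < (p : ℝ)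

/-- `k` is good: `k` and `n - f(k)`, where `f(k) = k ^ 2 + b k + c`, are almost primes: `f(k) < n`, and both
numbers have at most `r` prime factors, all larger than `n ^ (1 / r)`. -/
def Good (b c : ℤ) (r n k : ℕ) : Prop :=
  AlmostPrime r ((n : ℝ) ^ (1 / (r : ℝ))) k ∧ (k : ℤ) ^ 2 + b * k + c < n ∧
    AlmostPrime r ((n : ℝ) ^ (1 / (r : ℝ))) ((n : ℤ) - ((k : ℤ) ^ 2 + b * k + c)).toNat

open Classical in
/-- The sieve density: the product of `1 - ρ(p) / p` over the primes `p ≤ n ^ (1 / r)`, where `ρ(p)` is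
the number of the `k` mod `p` with `p ∣ k` or `p ∣ n - f(k)`. -/
noncomputable def V (b c : ℤ) (r n : ℕ) : ℝ :=
  ∏ p ∈ (Finset.range (⌊(n : ℝ) ^ (1 / (r : ℝ))⌋₊ + 1)).filter Nat.Prime,
    (1 - (((Finset.range p).filter
      (fun k : ℕ => p ∣ k ∨ (p : ℤ) ∣ n - ((k : ℤ) ^ 2 + b * k + c))).card : ℝ) / p)

open Classical in
/-- The sieve density of the pattern `B`: the product of `1 - ρ(p) / p` over the primes `p ≤ n ^ (1 / r)`,
where `ρ(p)` is the number of the `k` mod `p` with `p ∣ k + t` or `p ∣ n - f(k + t)` for some `t ∈ B`. -/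
noncomputable def VB (b c : ℤ) (r n : ℕ) (B : Finset ℕ) : ℝ :=
  ∏ p ∈ (Finset.range (⌊(n : ℝ) ^ (1 / (r : ℝ))⌋₊ + 1)).filter Nat.Prime,
    (1 - (((Finset.range p).filter (fun k : ℕ => ∃ t ∈ B, p ∣ k + t ∨
      (p : ℤ) ∣ n - (((k + t : ℕ) : ℤ) ^ 2 + b * ((k + t : ℕ) : ℤ) + c))).card : ℝ) / p)

open Classical in
/-- The number of the good `m` in `(u, v]`. -/
noncomputable def count (b c : ℤ) (r n : ℕ) (u v : ℕ) : ℕ :=
  ((Finset.Ioc u v).filter (fun m => Good b c r n m)).card

/-- The probability of `E` for the Poisson distribution of mean `x`. -/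
noncomputable def Poi (x : ℝ) (E : Finset ℕ) : ℝ :=
  ∑ j ∈ E, Real.exp (-x) * x ^ j / j.factorial

open Pool.Agent.TH464.PO

open Classical in
/-- **Patterns of representations with prescribed surroundings**, for every large odd `n` which is not a
value of `f`. -/
theorem result (b c : ℤ) (hbc : Odd (b + c)) (hb : ¬ (3 : ℤ) ∣ b) (θ : ℝ) (hθ : 0 < θ) (β w : ℕ)
    (x ε : ℝ) (hε : 0 < ε) :
    ∃ r0 : ℕ, ∀ r : ℕ, r0 ≤ r → ∀ᶠ n : ℕ in atTop, Odd n →
      (∀ m : ℤ, (n : ℤ) ≠ m ^ 2 + b * m + c) → ∀ Z Y : ℕ, (n : ℝ) ^ θ ≤ Y →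
      (∀ k : ℕ, k ≤ Z + 2 * Y → (k : ℤ) ^ 2 + b * k + c < n) →
      ∀ B : Finset ℕ, B.card ≤ β → (∀ h ∈ B, h * V b c r n ≤ x) →
      ∀ u v : Fin w → ℕ, (∀ i, u i ≤ v i) → (∀ i, v i * V b c r n ≤ x) →
      (∀ i j, i ≠ j → v i ≤ u j ∨ v j ≤ u i) → (∀ i, ∀ h ∈ B, h ≤ u i ∨ v i < h) →
      ∀ E : Fin w → Finset ℕ,
        |(((Finset.Ioc Z (Z + Y)).filter (fun k => (∀ h ∈ B, Good b c r n (k + h)) ∧
            ∀ i, count b c r n (k + u i) (k + v i) ∈ E i)).card : ℝ) -
          Y * VB b c r n B * ∏ i, Poi (((v i : ℝ) - u i) * V b c r n) (E i)| ≤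
            ε * (Y * VB b c r n B) := by
  obtain ⟨r0, h0⟩ := gq_base 3 7 (by norm_num) θ hθ β w x ε hε
  refine ⟨max r0 1, ?_⟩
  intro r hr
  filter_upwards [h0 r ((le_max_left _ _).trans hr), sf_GN b c r ((le_max_right _ _).trans hr),
    qn_GQ b c hbc hb] with n hn hsf hGQ
  intro hodd hno Z Y hY hZY
  exact hn (QN b c n) (hGQ hodd hno) (Good b c r n) (V b c r n) (VB b c r n) (Z + 2 * Y)
    (fun k hk => hsf k (hZY k hk)) (V_QN b c n _) (fun B => V_QNB b c n B _) Z Y hY le_rfl

end Pool.Agent.Results.MP_d9bc60_nt.PatternsEveryN
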