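import Pool.Agent.TH882.K5
import Pool.Agent.TH882.J6

/-!
Several integers `N_j` as `f_j(p) + q_j` with monic quadratic polynomials `f_j`, primes `q_j` and one
common prime `p` which has at least `m` other primes in its residue class modulo `q` at distance at
most `ε log x`: the right order of magnitude for all but a proportion `κ` of the vectors.
-/

set_option autoImplicit false

open Finset Filter Topology

namespace Pool.Agent.Results.MP_d9bc60_nt.SimultaneousInShortGaps

open Classical in
/-- The primes different from `p`, congruent to `p` modulo `q`, at distance at most `R` from `p`. -/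
noncomputable def neighbours (q : ℕ) (R : ℝ) (p : ℕ) : Finset ℕ :=
  (Icc 1 (p + ⌊R⌋₊)).filter (fun p' => p'.Prime ∧ p' ≠ p ∧ p' % q = p % q ∧ |(p' : ℝ) - p| ≤ R)

/-- For every prime `l` there is an integer `n` such that `l` divides none of the numbers `n` and
`N_j - (n ^ 2 + b_j * n + c_j)`. -/
def LocallyPossible {r : ℕ} (b c : Fin r → ℤ) (N : Fin r → ℕ) : Prop :=
  ∀ l : ℕ, l.Prime → ∃ n : ℤ, ¬ (l : ℤ) ∣ n ∧ ∀ j, ¬ (l : ℤ) ∣ N j - (n ^ 2 + b j * n + c j)

open Classical in
/-- The primes `p ≤ x` with at least `m` neighbours for which all the numbers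
`N_j - (p ^ 2 + b_j * p + c_j)` are (positive) primes. -/
noncomputable def representations {r : ℕ} (b c : Fin r → ℤ) (q m : ℕ) (ε : ℝ) (N : Fin r → ℕ)
    (x : ℕ) : Finset ℕ :=
  (Icc 1 x).filter (fun p => p.Prime ∧ m ≤ (neighbours q (ε * Real.log x) p).card ∧
    ∀ j, (N j - ((p : ℤ) ^ 2 + b j * p + c j)).toNat.Prime)

open Classical in
/-- The locally possible vectors with few representations. -/
noncomputable def exceptions {r : ℕ} (b c : Fin r → ℤ) (q m : ℕ) (ε δ : ℝ) (K x : ℕ) :
    Finset (Fin r → ℕ) :=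
  (Fintype.piFinset (fun _ : Fin r => Icc 1 (K * x ^ 2))).filter (fun N =>
    LocallyPossible b c N ∧
    ((representations b c q m ε N x).card : ℝ) < δ * (x / Real.log x ^ (r + 1)))

open Polynomial in
theorem result (r : ℕ) (b c : Fin r → ℤ) (q m K : ℕ) (hq : 1 ≤ q) (ε κ : ℝ) (hε : 0 < ε)
    (hκ : 0 < κ) : (∃ δ : ℝ, 0 < δ ∧ ∃ x₀ : ℕ, ∀ x : ℕ, x₀ ≤ x →
      ((exceptions b c q m ε δ K x).card : ℝ) ≤ κ * ((x : ℝ) ^ 2) ^ r) ∧
    ∀ (b' c' : ℤ) (N : ℕ), Odd (b' + c') → ¬ (3 : ℤ) ∣ b' → Odd N →
      LocallyPossible (fun _ : Fin 1 => b') (fun _ => c') (fun _ => N) := by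
  classical
  constructor
  · set g : Fin r → Polynomial ℤ := fun j => C 1 * Polynomial.X ^ 2 +
      C (b j) * Polynomial.X + C (c j) with hg
    have hgd : ∀ j, (g j).natDegree = 2 := fun j => by
      rw [hg]
      exact natDegree_quadratic one_ne_zero
    have hge : ∀ j, ∀ n : ℤ, (g j).eval n = n ^ 2 + b j * n + c j := by
      intro j n
      rw [hg]
      simp only [eval_add, eval_mul, eval_C, eval_pow, eval_X]
      ring
    obtain ⟨M, hM, δ, hδ, x₀, h⟩ := Pool.Agent.TH882.KS.sys_mostG g
      (fun j => by rw [hgd j]; norm_num)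
      (fun j => by
        rw [hg]
        simp only
        rw [leadingCoeff_quadratic one_ne_zero]
        norm_num) (Pool.Agent.TH882.JS.KQ q m ε) (Pool.Agent.TH882.JS.KQ_most q m hq ε hε) K κ hκ
    refine ⟨δ, hδ, max x₀ (100 * M), fun x hx => ?_⟩
    have hx0 : x₀ ≤ x := by omega
    have hx100 : 100 * M ≤ x := by omega
    have h1 := h x hx0
    have e0 : ∏ j, (x : ℝ) ^ (g j).natDegree = ((x : ℝ) ^ 2) ^ r := by
      rw [prod_congr rfl fun j _ => by rw [hgd j]]
      rw [prod_const, card_univ, Fintype.card_fin]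
    rw [e0] at h1
    refine le_trans ?_ h1
    apply Nat.cast_le.2
    apply card_le_card
    intro N hN
    unfold exceptions at hN
    rw [mem_filter, Fintype.mem_piFinset] at hN
    rw [mem_filter, Fintype.mem_piFinset]
    obtain ⟨hc1, hc2, hc3⟩ := hN
    refine ⟨fun j => ?_, ?_, lt_of_le_of_lt ?_ hc3⟩
    · rw [hgd j]
      exact hc1 j
    · intro l hl
      obtain ⟨n, hn1, hn2⟩ := hc2 l hl
      refine ⟨n, hn1, fun j h => hn2 j ?_⟩
      rw [hge j n] at h
      have e1 : (N j : ℤ) + -1 * (n ^ 2 + b j * n + c j) = N j - (n ^ 2 + b j * n + c j) := by ring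
      rwa [e1] at h
    · apply Nat.cast_le.2
      apply card_le_card
      intro n hn
      unfold Pool.Agent.TH882.KS.SysG at hn
      rw [mem_filter, mem_Ico] at hn
      obtain ⟨⟨hn1, hn2⟩, hn3, hn4⟩ := hn
      unfold Pool.Agent.TH882.JS.KQ at hn3
      rw [mem_filter] at hn3
      have hXM : M * (x / M) ≤ x := Nat.mul_div_le x M
      have hX100 : 100 ≤ x / M := by
        rw [Nat.le_div_iff_mul_le (by omega)]
        exact hx100
      have hXx : 3 * (x / M) ≤ x := (Nat.mul_le_mul_right _ hM).trans hXM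
      unfold representations
      rw [mem_filter, mem_Icc]
      refine ⟨⟨by omega, by omega⟩, hn3.2.1, hn3.2.2.trans ?_, ?_⟩
      · unfold Pool.Agent.TH882.JS.nbq neighbours
        apply card_le_card
        have hX0 : (0 : ℝ) < (x / M : ℕ) := by
          have : 0 < x / M := by omega
          exact_mod_cast this
        have hX1 : (1 : ℝ) ≤ (x / M : ℕ) := by
          have : 1 ≤ x / M := by omega
          exact_mod_cast this
        have hXN : ((x / M : ℕ) : ℝ) ≤ x := by
          have : x / M ≤ x := by omega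
          exact_mod_cast this
        have hlog : Real.log (x / M : ℕ) ≤ Real.log x := Real.log_le_log hX0 hXN
        have hlog0 : 0 ≤ Real.log (x / M : ℕ) := Real.log_nonneg hX1
        have hR : ε * Real.log (x / M : ℕ) ≤ ε * Real.log x := mul_le_mul_of_nonneg_left hlog hε.le
        have hfl : ⌊ε * Real.log (x / M : ℕ)⌋₊ ≤ ⌊ε * Real.log x⌋₊ := Nat.floor_le_floor hR
        have hfl2 : ((⌊ε * Real.log (x / M : ℕ)⌋₊ : ℕ) : ℝ) ≤ ε * Real.log x :=
          (Nat.floor_le (by positivity)).trans hR
        intro p' hp'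
        rw [mem_filter, mem_Icc] at hp' ⊢
        obtain ⟨⟨hq1, hq2⟩, hq3, hq4, hq5⟩ := hp'
        refine ⟨⟨hq3.pos, by omega⟩, hq3, hq4, hq5, ?_⟩
        rw [abs_le]
        have e1 : (p' : ℝ) ≤ n + (⌊ε * Real.log (x / M : ℕ)⌋₊ : ℕ) := by exact_mod_cast hq2
        have e2 : (n : ℝ) ≤ p' + (⌊ε * Real.log (x / M : ℕ)⌋₊ : ℕ) := by
          have : n ≤ p' + ⌊ε * Real.log (x / M : ℕ)⌋₊ := by omega
          exact_mod_cast this
        constructor <;> linarith
      · intro j
        have e1 := hn4 j
        rw [hge j] at e1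
        exact e1
  · intro b' c' N hbc hb hN l hl
    rcases Nat.lt_or_ge l 4 with h4 | h4
    · have hl2 := hl.two_le
      have h5 : l = 2 ∨ l = 3 := by omega
      rcases h5 with rfl | rfl
      · refine ⟨1, by norm_num, fun j hd => ?_⟩
        have h6 : (((N : ℕ) : ℤ) - (1 ^ 2 + b' * 1 + c')) % 2 = 0 :=
          Int.emod_eq_zero_of_dvd (by exact_mod_cast hd)
        have h7 : (b' + c') % 2 = 1 := Int.odd_iff.1 hbc
        have h8 : N % 2 = 1 := Nat.odd_iff.1 hN
        omega
      · by_cases h6 : ((3 : ℕ) : ℤ) ∣ ((N : ℕ) : ℤ) - (1 ^ 2 + b' * 1 + c')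
        · refine ⟨2, by norm_num, fun j hd => hb ?_⟩
          have h7 := h6.sub hd
          have h8 : ((N : ℕ) : ℤ) - (1 ^ 2 + b' * 1 + c') - (((N : ℕ) : ℤ) - (2 ^ 2 + b' * 2 + c')) =
              b' + 3 := by ring
          rw [h8] at h7
          have h9 : (3 : ℤ) ∣ b' + 3 := by exact_mod_cast h7
          omega
        · exact ⟨1, by norm_num, fun j => h6⟩
    · have hl4 : l ≠ 4 := by
        rintro rfl
        exact absurd hl (by norm_num)
      set g : Fin 1 → Polynomial ℤ := fun _ => C 1 * Polynomial.X ^ 2 + C b' * Polynomial.X + C c'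
        with hg
      have h5 := Pool.Agent.TH882.KS.rl_low (fun _ : Fin 1 => (-1 : ℤ)) (fun _ => Or.inr rfl) g
        (fun j => by
          rw [hg]
          simp only
          rw [natDegree_quadratic one_ne_zero]
          norm_num) l hl
        (fun j => by
          rw [hg]
          simp only
          rw [leadingCoeff_quadratic one_ne_zero]
          intro hd
          have := Int.le_of_dvd one_pos hd
          omega) (fun _ => N)
      have h50 : ∑ j : Fin 1, (g j).natDegree = 2 := by
        rw [hg, Fin.sum_univ_one]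
        exact natDegree_quadratic one_ne_zero
      rw [h50] at h5
      have h6 : 0 < Pool.Agent.TH882.KS.rl (fun _ : Fin 1 => (-1 : ℤ)) g l (fun _ => N) := by omega
      unfold Pool.Agent.TH882.KS.rl at h6
      obtain ⟨n, hn⟩ := card_pos.1 h6
      rw [mem_filter, mem_range] at hn
      obtain ⟨hb1, hb2, hb3⟩ := hn
      refine ⟨(n : ℤ), ?_, ?_⟩
      · intro hd
        have h8 : l ∣ n := by exact_mod_cast hd
        exact absurd (Nat.le_of_dvd (Nat.pos_of_ne_zero hb2) h8) (by omega)
      · intro j hd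
        apply hb3 j
        have e1 : (g j).eval (n : ℤ) = (n : ℤ) ^ 2 + b' * n + c' := by
          rw [hg]
          simp only [eval_add, eval_mul, eval_C, eval_pow, eval_X]
          ring
        rw [e1]
        have e2 : ((N : ℕ) : ℤ) + -1 * ((n : ℤ) ^ 2 + b' * n + c') =
          (N : ℤ) - ((n : ℤ) ^ 2 + b' * n + c') := by ring
        rw [e2]
        exact hd

end Pool.Agent.Results.MP_d9bc60_nt.SimultaneousInShortGaps
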